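import Pool.Agent.R161.Bohr.Basic

/-! `s_avg` (helper971). -/

set_option autoImplicit false

namespace Pool.Agent.R971.Bohr

open Finset Pool.Agent.R161.Bohr
open scoped ComplexConjugate

universe u v

section
variable {G : Type u} [AddCommGroup G] {H : Type u} [NormedAddCommGroup H]
    [InnerProductSpace ℂ H] {m : St G} {J : (G → ℂ) → H} {T : G → H →L[ℂ] H}
    {E : AddChar G Circle → H →L[ℂ] H}

theorem J_zero (M : IsModel m J T E) : J (fun _ => 0) = 0 := by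
  have := M.J_smul 0 (fun _ => 1) (Bdd.const 1)
  simpa using this

theorem J_sum (M : IsModel m J T E) {ι : Type*} (s : Finset ι) (f : ι → G → ℂ) (hf : ∀ i ∈ s, Bdd (f i)) :
    J (fun x => ∑ i ∈ s, f i x) = ∑ i ∈ s, J (f i) := by
  classical
  induction s using Finset.induction_on with
  | empty => simpa using J_zero M
  | insert a s ha ih =>
    have h1 := M.J_add (f a) (fun x => ∑ i ∈ s, f i x) (hf a (mem_insert_self a s))
      (Bdd.sum s fun i hi => hf i (mem_insert_of_mem hi))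
    rw [ih fun i hi => hf i (mem_insert_of_mem hi)] at h1
    simpa [sum_insert ha] using h1

theorem norm_sq_J (M : IsModel m J T E) {f : G → ℂ} (hf : Bdd f) : ‖J f‖ ^ 2 = m.n2 f := by
  have h1 := M.J_inner f f hf hf
  rw [← m.n2_eq' hf, inner_self_eq_norm_sq_to_K] at h1
  have h3 : ((‖J f‖ ^ 2 : ℝ) : ℂ) = ((m.n2 f : ℝ) : ℂ) := by
    rw [← h1]; push_cast; rfl
  exact Complex.ofReal_injective h3

/-- the character vectors -/
noncomputable def ev (J : (G → ℂ) → H) (ξ : AddChar G Circle) : H := J (fun x => (ξ x : ℂ))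

theorem inner_ev (M : IsModel m J T E) (ξ : AddChar G Circle) {f : G → ℂ} (hf : Bdd f) :
    inner ℂ (ev J ξ) (J f) = coef m f ξ := by
  unfold ev
  rw [M.J_inner _ _ (Bdd.char ξ) hf]
  unfold coef
  congr 1
  funext x
  ring

theorem inner_ev_ev (hm : m.Inv) (M : IsModel m J T E) (ξ ζ : AddChar G Circle) :
    inner ℂ (ev J ξ) (ev J ζ) = if ζ = ξ then (1 : ℂ) else 0 := by
  have h := inner_ev M ξ (Bdd.char ζ)
  rw [coef_char hm] at h
  exact h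

theorem T_ev (M : IsModel m J T E) (s : G) (ξ : AddChar G Circle) : T s (ev J ξ) = (ξ s : ℂ) • ev J ξ := by
  unfold ev
  rw [M.T_J s _ (Bdd.char ξ), ← M.J_smul _ _ (Bdd.char ξ)]
  congr 1
  funext x
  rw [char_add]; ring

theorem E_ev (M : IsModel m J T E) (ζ ξ : AddChar G Circle) : E ζ (ev J ξ) = ev J (ζ * ξ) := by
  unfold ev
  rw [M.E_J ζ _ (Bdd.char ξ)]
  refine congrArg J (funext fun x => ?_)
  rw [char_mul]

theorem norm_T (M : IsModel m J T E) (s : G) (x : H) : ‖T s x‖ = ‖x‖ := by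
  have h := M.T_inner s x x
  rw [inner_self_eq_norm_sq_to_K, inner_self_eq_norm_sq_to_K] at h
  have h2 : ‖T s x‖ ^ 2 = ‖x‖ ^ 2 := by exact_mod_cast h
  exact (pow_left_inj₀ (norm_nonneg _) (norm_nonneg _) two_ne_zero).mp h2

theorem norm_E (M : IsModel m J T E) (ξ : AddChar G Circle) (x : H) : ‖E ξ x‖ = ‖x‖ := by
  have h := M.E_inner ξ x x
  rw [inner_self_eq_norm_sq_to_K, inner_self_eq_norm_sq_to_K] at h
  have h2 : ‖E ξ x‖ ^ 2 = ‖x‖ ^ 2 := by exact_mod_cast h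
  exact (pow_left_inj₀ (norm_nonneg _) (norm_nonneg _) two_ne_zero).mp h2

/-- norm of a combination of the character vectors -/
theorem norm_comb (hm : m.Inv) (M : IsModel m J T E) (Λ : Finset (AddChar G Circle)) (c : AddChar G Circle → ℂ) :
    ‖∑ ξ ∈ Λ, c ξ • ev J ξ‖ ^ 2 = ∑ ξ ∈ Λ, ‖c ξ‖ ^ 2 := by
  have h1 : ∑ ξ ∈ Λ, c ξ • ev J ξ = J (trig Λ c) := by
    unfold trig
    rw [J_sum M Λ (fun ξ x => c ξ * (ξ x : ℂ)) fun ξ _ => (Bdd.char ξ).cmul (c ξ)]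
    refine Finset.sum_congr rfl fun ξ _ => ?_
    rw [M.J_smul _ _ (Bdd.char ξ)]
    rfl
  rw [h1, norm_sq_J M (Bdd.trig Λ c), n2_trig hm]

theorem inner_ev_comb (hm : m.Inv) (M : IsModel m J T E) (Λ : Finset (AddChar G Circle))
    (c : AddChar G Circle → ℂ) (ζ : AddChar G Circle) (hζ : ζ ∈ Λ) :
    inner ℂ (ev J ζ) (∑ ξ ∈ Λ, c ξ • ev J ξ) = c ζ := by
  classical
  rw [inner_sum]
  simp_rw [inner_smul_right, inner_ev_ev hm M]
  simp [hζ]

end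

theorem s_avg : S_model.{u} → S_met.{u} → S_fin.{u} → S_ch.{u} → S_avg.{u} := by
  classical
  intro hmod hmet hfin hch G _ m hm hext f hf L hL β hβ hcoef ε hε
  obtain ⟨H, i1, i2, i3, J, T, E, M⟩ := hmod G m hm
  obtain ⟨y, hyL, hyorth, happ⟩ := hmet G H T ⟨M.T_zero, M.T_add, M.T_inner⟩ L (J f)
  obtain ⟨Ξ, hΞ, hcard, -⟩ := hch G L hL
  have hyspan := hfin G m hm hext H J T E M L hL y hyL Ξ (fun ξ h => (hΞ ξ).2 h)
  obtain ⟨c, hc⟩ : ∃ c : AddChar G Circle → ℂ, ∑ ξ ∈ Ξ, c ξ • ev J ξ = y := by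
    obtain ⟨c, hc⟩ := (Submodule.mem_span_image_finset_iff_exists_fun' ℂ).mp hyspan
    exact ⟨c, hc⟩
  have hcoef2 : ∀ ξ ∈ Ξ, c ξ = coef m f ξ := by
    intro ξ hξ
    have h1 : inner ℂ (ev J ξ) (J f - y) = (0 : ℂ) := by
      refine hyorth _ fun l hl => ?_
      rw [T_ev M, (hΞ ξ).1 hξ l hl]
      simp
    rw [inner_sub_right, inner_ev M ξ hf, ← hc, inner_ev_comb hm M Ξ c ξ hξ, sub_eq_zero] at h1
    exact h1.symm
  have hy : ‖y‖ ^ 2 ≤ (L.index : ℝ) * β ^ 2 := by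
    rw [← hc, norm_comb hm M]
    calc ∑ ξ ∈ Ξ, ‖c ξ‖ ^ 2 ≤ ∑ _ξ ∈ Ξ, β ^ 2 := by
          refine Finset.sum_le_sum fun ξ hξ => ?_
          rw [hcoef2 ξ hξ]
          exact pow_le_pow_left₀ (norm_nonneg _) (hcoef ξ ((hΞ ξ).1 hξ)) 2
      _ = (Ξ.card : ℝ) * β ^ 2 := by rw [Finset.sum_const, nsmul_eq_mul]
      _ ≤ (L.index : ℝ) * β ^ 2 := by
          have : (Ξ.card : ℝ) ≤ L.index := by exact_mod_cast hcard
          gcongr
  set δ : ℝ := min 1 (ε / (2 * ‖y‖ + 1)) with hδ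
  have hδ0 : 0 < δ := lt_min one_pos (by positivity)
  obtain ⟨s, w, hs, hw, hA⟩ := happ δ hδ0
  refine ⟨s, w, hs, hw, ?_⟩
  have hb : ∀ l ∈ s, Bdd (fun x => (w l : ℂ) * f (x + l)) := fun l _ =>
    Bdd.cmul _ (hf.comp fun x => x + l)
  have h1 : ∑ l ∈ s, (w l : ℂ) • T l (J f) = J (fun x => ∑ l ∈ s, (w l : ℂ) * f (x + l)) := by
    rw [J_sum M s (fun l x => (w l : ℂ) * f (x + l)) hb]
    refine Finset.sum_congr rfl fun l _ => ?_
    rw [M.T_J l f hf, M.J_smul _ _ (hf.comp fun x => x + l)]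
  rw [← norm_sq_J M (Bdd.sum s hb), ← h1]
  have h2 : ‖∑ l ∈ s, (w l : ℂ) • T l (J f)‖ ≤ ‖y‖ + δ := by
    have := norm_add_le y (∑ l ∈ s, (w l : ℂ) • T l (J f) - y)
    rw [add_sub_cancel] at this
    linarith
  have h3 : δ * (2 * ‖y‖ + 1) ≤ ε := by
    have : δ ≤ ε / (2 * ‖y‖ + 1) := min_le_right _ _
    rwa [le_div_iff₀ (by positivity)] at this
  have h4 : δ ≤ 1 := min_le_left _ _
  calc ‖∑ l ∈ s, (w l : ℂ) • T l (J f)‖ ^ 2 ≤ (‖y‖ + δ) ^ 2 := pow_le_pow_left₀ (norm_nonneg _) h2 2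
    _ = ‖y‖ ^ 2 + δ * (2 * ‖y‖ + δ) := by ring
    _ ≤ ‖y‖ ^ 2 + δ * (2 * ‖y‖ + 1) := by gcongr
    _ ≤ _ := by linarith

end Pool.Agent.R971.Bohr
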