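import Pool.Agent.R971.Bohr.Avg

/-! `s_wm` (helper971). -/

set_option autoImplicit false

namespace Pool.Agent.R971.Bohr

open Finset Pool.Agent.R161.Bohr
open scoped ComplexConjugate

universe u v

section
variable {G : Type u} [AddCommGroup G] {H : Type u} [NormedAddCommGroup H]
    [InnerProductSpace ℂ H] {m : St G} {J : (G → ℂ) → H} {T : G → H →L[ℂ] H}
    {E : AddChar G Circle → H →L[ℂ] H}

/-- the closed span of the characters -/
noncomputable def KK (J : (G → ℂ) → H) : Submodule ℂ H :=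
  (Submodule.span ℂ (Set.range (ev J))).topologicalClosure

theorem ev_mem (ξ : AddChar G Circle) : ev J ξ ∈ KK J :=
  (Submodule.le_topologicalClosure _) (Submodule.subset_span ⟨ξ, rfl⟩)

theorem KK_isClosed : IsClosed (KK J : Set H) := Submodule.isClosed_topologicalClosure _

/-- invariance of `KK` under a continuous linear map that preserves the characters up to scalars -/
theorem KK_map (A : H →L[ℂ] H) (h : ∀ ξ, A (ev J ξ) ∈ KK J) {x : H} (hx : x ∈ KK J) : A x ∈ KK J := by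
  have h1 : KK J ≤ (KK J).comap (A : H →ₗ[ℂ] H) := by
    refine Submodule.topologicalClosure_minimal _ ?_ ?_
    · rw [Submodule.span_le]
      rintro _ ⟨ξ, rfl⟩
      exact h ξ
    · exact KK_isClosed.preimage A.continuous
  exact h1 hx

theorem T_KK (M : IsModel m J T E) (s : G) {x : H} (hx : x ∈ KK J) : T s x ∈ KK J :=
  KK_map (T s) (fun ξ => by rw [T_ev M]; exact (KK J).smul_mem _ (ev_mem ξ)) hx

theorem E_KK (M : IsModel m J T E) (ζ : AddChar G Circle) {x : H} (hx : x ∈ KK J) : E ζ x ∈ KK J :=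
  KK_map (E ζ) (fun ξ => by rw [E_ev M]; exact ev_mem _) hx

theorem T_perp (M : IsModel m J T E) (s : G) {x : H} (hx : x ∈ (KK J)ᗮ) : T s x ∈ (KK J)ᗮ := by
  rw [Submodule.mem_orthogonal] at hx ⊢
  intro y hy
  have h1 : T s (T (-s) y) = y := by rw [← M.T_add, add_neg_cancel, M.T_zero]
  rw [← h1, M.T_inner]
  exact hx _ (T_KK M _ hy)

theorem E_perp (M : IsModel m J T E) (ζ : AddChar G Circle) {x : H} (hx : x ∈ (KK J)ᗮ) :
    E ζ x ∈ (KK J)ᗮ := by
  rw [Submodule.mem_orthogonal] at hx ⊢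
  intro y hy
  have h1 : E ζ (E ζ⁻¹ y) = y := by rw [← M.E_mul, mul_inv_cancel, M.E_one]
  rw [← h1, M.E_inner]
  exact hx _ (E_KK M _ hy)

/-- the projection on the characters is small -/
theorem norm_proj_le (hm : m.Inv) (M : IsModel m J T E) {g : G → ℂ} (hg : Bdd g) {τ : ℝ} (hτ : 0 ≤ τ)
    (hc : ∀ Λ : Finset (AddChar G Circle), ∑ ξ ∈ Λ, ‖coef m g ξ‖ ^ 2 ≤ τ ^ 2)
    {u v : H} (hu : u ∈ KK J) (hv : v ∈ (KK J)ᗮ) (huv : J g = v + u) : ‖u‖ ≤ τ := by
  classical
  have key : ∀ δ : ℝ, 0 < δ → ‖u‖ ^ 2 ≤ δ * ‖J g‖ + (‖u‖ + δ) * τ := by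
    intro δ hδ
    have h1 : u ∈ closure ((Submodule.span ℂ (Set.range (ev J)) : Submodule ℂ H) : Set H) := hu
    obtain ⟨p, hp, hup⟩ := Metric.mem_closure_iff.mp h1 δ hδ
    rw [dist_eq_norm] at hup
    obtain ⟨c, hcp⟩ := (Finsupp.mem_span_range_iff_exists_finsupp).mp hp
    have hp2 : p = ∑ ξ ∈ c.support, c ξ • ev J ξ := hcp.symm
    have hpn : ‖p‖ ^ 2 = ∑ ξ ∈ c.support, ‖c ξ‖ ^ 2 := by
      rw [hp2, norm_comb hm M]
    have h2 : ‖(inner ℂ p (J g) : ℂ)‖ ≤ ‖p‖ * τ := by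
      rw [hp2, sum_inner]
      simp_rw [inner_smul_left, inner_ev M _ hg]
      refine (norm_sum_le _ _).trans ?_
      simp_rw [norm_mul, RCLike.norm_conj]
      have h3 := Finset.sum_mul_sq_le_sq_mul_sq c.support (fun ξ => ‖c ξ‖) (fun ξ => ‖coef m g ξ‖)
      rw [← hpn] at h3
      rw [← hp2]
      have h4 : 0 ≤ ∑ ξ ∈ c.support, ‖c ξ‖ * ‖coef m g ξ‖ := Finset.sum_nonneg fun _ _ => by positivity
      have h5 : (∑ ξ ∈ c.support, ‖c ξ‖ * ‖coef m g ξ‖) ^ 2 ≤ (‖p‖ * τ) ^ 2 := by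
        rw [mul_pow]
        exact h3.trans (mul_le_mul_of_nonneg_left (hc _) (by positivity))
      exact (pow_le_pow_iff_left₀ h4 (by positivity) two_ne_zero).mp h5
    have h6 : (inner ℂ u (J g) : ℂ) = ((‖u‖ ^ 2 : ℝ) : ℂ) := by
      rw [huv, inner_add_right, (Submodule.mem_orthogonal _ _).mp hv u hu, zero_add,
        inner_self_eq_norm_sq_to_K]
      push_cast; rfl
    have h7 : ‖u‖ ^ 2 = ‖(inner ℂ u (J g) : ℂ)‖ := by
      rw [h6, Complex.norm_real, Real.norm_eq_abs, abs_of_nonneg (by positivity)]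
    have h8 : (inner ℂ u (J g) : ℂ) = inner ℂ (u - p) (J g) + inner ℂ p (J g) := by
      rw [← inner_add_left, sub_add_cancel]
    have h9 : ‖p‖ ≤ ‖u‖ + δ := by
      have := norm_sub_norm_le p u
      rw [norm_sub_rev] at this
      linarith
    rw [h7, h8]
    refine (norm_add_le _ _).trans (add_le_add ?_ ?_)
    · refine (norm_inner_le_norm _ _).trans ?_
      gcongr
    · exact h2.trans (by gcongr)
  by_contra hlt
  push Not at hlt
  have hu0 : 0 < ‖u‖ := hτ.trans_lt hlt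
  set δ : ℝ := ‖u‖ * (‖u‖ - τ) / (2 * (‖J g‖ + τ + 1)) with hδ
  have hδ0 : 0 < δ := by
    have : 0 < ‖u‖ - τ := by linarith
    positivity
  have h := key δ hδ0
  have h2 : δ * (‖J g‖ + τ) ≤ ‖u‖ * (‖u‖ - τ) / 2 := by
    have h3 : δ * (2 * (‖J g‖ + τ + 1)) = ‖u‖ * (‖u‖ - τ) := by
      rw [hδ]; field_simp
    nlinarith
  have : 0 < ‖u‖ * (‖u‖ - τ) := mul_pos hu0 (by linarith)
  nlinarith

end

/-- a finite index subgroup has positive mean -/
theorem mean_sub_pos {G : Type u} [AddCommGroup G] {m : St G} (hm : m.Inv) (L : AddSubgroup G)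
    (hL : L.index ≠ 0) : 0 < m.re ((L : Set G).indicator fun _ => 1) := by
  classical
  have hbi : BddR ((L : Set G).indicator fun _ => (1 : ℝ)) :=
    ⟨1, fun x => by by_cases h : x ∈ (L : Set G) <;> simp [h]⟩
  have : Fintype (G ⧸ L) := AddSubgroup.fintypeOfIndexNeZero hL
  have h1 : (fun x => ∑ q : G ⧸ L, (L : Set G).indicator (fun _ => (1 : ℝ)) (x + (-q.out))) = fun _ => 1 := by
    funext x
    have h2 : ∀ q : G ⧸ L, (L : Set G).indicator (fun _ => (1 : ℝ)) (x + (-q.out)) =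
        if q = (x : G ⧸ L) then 1 else 0 := by
      intro q
      have h3 : x + (-q.out) ∈ (L : Set G) ↔ q = (x : G ⧸ L) := by
        constructor
        · intro h
          have : ((q.out : G) : G ⧸ L) = (x : G ⧸ L) := by
            rw [QuotientAddGroup.eq]
            rwa [add_comm] at h
          rw [← this]
          exact (Quotient.out_eq' q).symm
        · intro h
          have : ((q.out : G) : G ⧸ L) = (x : G ⧸ L) := by
            rw [← h]; exact Quotient.out_eq' q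
          rw [QuotientAddGroup.eq] at this
          rwa [add_comm] at this
      by_cases h : q = (x : G ⧸ L)
      · rw [if_pos h, Set.indicator_of_mem (h3.mpr h)]
      · rw [if_neg h, Set.indicator_of_notMem (fun h' => h (h3.mp h'))]
    rw [Finset.sum_congr rfl fun q _ => h2 q]
    simp
  have h2 : m.re (fun x => ∑ q : G ⧸ L, (L : Set G).indicator (fun _ => (1 : ℝ)) (x + (-q.out))) = 1 := by
    rw [h1]; exact m.re_const 1
  rw [m.re_sum _ fun q _ => hbi.comp fun x => x + (-q.out)] at h2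
  have h3 : ∀ q : G ⧸ L, m.re (fun x => (L : Set G).indicator (fun _ => (1 : ℝ)) (x + (-q.out))) =
      m.re ((L : Set G).indicator fun _ => 1) := by
    intro q
    exact congrArg Complex.re (hm (fun x => (((L : Set G).indicator (fun _ => (1 : ℝ)) x : ℝ) : ℂ)) (-q.out) hbi.ofReal)
  rw [Finset.sum_congr rfl fun q _ => h3 q, Finset.sum_const] at h2
  have h4 : 0 ≤ m.re ((L : Set G).indicator fun _ => 1) :=
    m.re_nonneg hbi fun x => Set.indicator_nonneg (fun _ _ => zero_le_one) x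
  rcases h4.eq_or_lt with h5 | h5
  · rw [← h5] at h2; simp at h2
  · exact h5

theorem s_wm : S_model.{u} → S_rep.{u} → S_erg.{u} → S_wm.{u} := by
  classical
  intro hmod hrep herg G _ m hm hext g hg τ hτ hc L hL K Ξ ε hε
  obtain ⟨H, i1, i2, i3, J, T, E, M⟩ := hmod G m hm
  have hcl : IsClosed (KK J : Set H) := KK_isClosed
  have : CompleteSpace (KK J) := hcl.completeSpace_coe
  set u : H := (KK J).starProjection (J g) with hu
  set v : H := J g - u with hv
  have huK : u ∈ KK J := Submodule.starProjection_apply_mem _ _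
  have hvK : v ∈ (KK J)ᗮ := Submodule.sub_starProjection_mem_orthogonal _
  have huv : J g = v + u := by rw [hv]; abel
  have hun := norm_proj_le hm M hg hτ hc huK hvK huv
  -- the square correlations vanish in mean
  have hbd : ∀ w : H, BddR (fun k => ‖(inner ℂ w (T k v) : ℂ)‖ ^ 2) := by
    intro w
    refine ⟨(‖w‖ * ‖v‖) ^ 2, fun k => ?_⟩
    rw [abs_of_nonneg (by positivity)]
    refine pow_le_pow_left₀ (norm_nonneg _) ?_ 2
    have := norm_inner_le_norm (𝕜 := ℂ) w (T k v)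
    rwa [norm_T M] at this
  have hz : ∀ w : H, m.re (fun k => ‖(inner ℂ w (T k v) : ℂ)‖ ^ 2) = 0 := by
    intro w
    by_contra hne
    obtain ⟨x, χ, hx, hxv⟩ := hrep G m hm H T ⟨M.T_zero, M.T_add, M.T_inner⟩ v w hne
    obtain ⟨c, hcx⟩ := herg G m hm hext H J T E M χ x hx
    apply hxv
    refine (Submodule.mem_orthogonal _ _).mp hvK x ?_
    rw [hcx]
    exact (KK J).smul_mem _ (ev_mem χ)
  set F : G → ℝ := fun k => ∑ k' ∈ K, ∑ ξ ∈ Ξ, ‖(inner ℂ (E ξ (T k' v)) (T k v) : ℂ)‖ ^ 2 with hF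
  have hFb : BddR F := BddR.sum K fun k' _ => BddR.sum Ξ fun ξ _ => hbd _
  have hF0 : m.re F = 0 := by
    rw [hF, m.re_sum K fun k' _ => BddR.sum Ξ fun ξ _ => hbd _]
    refine Finset.sum_eq_zero fun k' _ => ?_
    rw [m.re_sum Ξ fun ξ _ => hbd _]
    exact Finset.sum_eq_zero fun ξ _ => hz _
  -- the splitting
  have hsplit : ∀ (k k' : G) (ξ : AddChar G Circle),
      m (fun x => g (x + k) * conj (g (x + k')) * conj (ξ x : ℂ)) =
        inner ℂ (E ξ (T k' v)) (T k v) + inner ℂ (E ξ (T k' u)) (T k u) := by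
    intro k k' ξ
    have hgk : Bdd (fun x => g (x + k)) := hg.comp fun x => x + k
    have hgk' : Bdd (fun x => g (x + k')) := hg.comp fun x => x + k'
    have h1 : inner ℂ (E ξ (T k' (J g))) (T k (J g)) =
        m (fun x => g (x + k) * conj (g (x + k')) * conj (ξ x : ℂ)) := by
      rw [M.T_J k' g hg, M.T_J k g hg, M.E_J ξ _ hgk', M.J_inner _ _ ((Bdd.char ξ).mul hgk') hgk]
      congr 1
      funext x
      rw [_root_.map_mul]; ring
    rw [← h1, huv, map_add, map_add, map_add, inner_add_left, inner_add_right, inner_add_right]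
    have h2 : inner ℂ (E ξ (T k' v)) (T k u) = (0 : ℂ) :=
      (Submodule.mem_orthogonal' _ _).mp (E_perp M ξ (T_perp M k' hvK)) _ (T_KK M k huK)
    have h3 : inner ℂ (E ξ (T k' u)) (T k v) = (0 : ℂ) :=
      (Submodule.mem_orthogonal _ _).mp (T_perp M k hvK) _ (E_KK M ξ (T_KK M k' huK))
    rw [h2, h3]; ring
  by_contra hcon
  push Not at hcon
  have hge : ∀ k, ε ^ 2 * ((L : Set G).indicator (fun _ => (1 : ℝ)) k) ≤ F k := by
    intro k
    have hFn : 0 ≤ F k := Finset.sum_nonneg fun _ _ => Finset.sum_nonneg fun _ _ => by positivity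
    by_cases hk : k ∈ L
    · rw [Set.indicator_of_mem (show k ∈ (L : Set G) from hk), mul_one]
      obtain ⟨k', hk', ξ, hξ, hlt⟩ := hcon k hk
      rw [hsplit] at hlt
      have h1 : ‖(inner ℂ (E ξ (T k' u)) (T k u) : ℂ)‖ ≤ τ ^ 2 := by
        refine (norm_inner_le_norm _ _).trans ?_
        rw [norm_E M, norm_T M, norm_T M]
        nlinarith [norm_nonneg u]
      have h2 : ε < ‖(inner ℂ (E ξ (T k' v)) (T k v) : ℂ)‖ := by
        have := norm_add_le (inner ℂ (E ξ (T k' v)) (T k v) : ℂ) (inner ℂ (E ξ (T k' u)) (T k u))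
        linarith
      have h3 : ‖(inner ℂ (E ξ (T k' v)) (T k v) : ℂ)‖ ^ 2 ≤
          ∑ ξ ∈ Ξ, ‖(inner ℂ (E ξ (T k' v)) (T k v) : ℂ)‖ ^ 2 :=
        Finset.single_le_sum (f := fun ξ => ‖(inner ℂ (E ξ (T k' v)) (T k v) : ℂ)‖ ^ 2)
          (fun _ _ => by positivity) hξ
      have h4 : ∑ ξ ∈ Ξ, ‖(inner ℂ (E ξ (T k' v)) (T k v) : ℂ)‖ ^ 2 ≤ F k :=
        Finset.single_le_sum (f := fun k' => ∑ ξ ∈ Ξ, ‖(inner ℂ (E ξ (T k' v)) (T k v) : ℂ)‖ ^ 2)
          (fun _ _ => Finset.sum_nonneg fun _ _ => by positivity) hk'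
      calc ε ^ 2 ≤ ‖(inner ℂ (E ξ (T k' v)) (T k v) : ℂ)‖ ^ 2 := pow_le_pow_left₀ hε.le h2.le 2
        _ ≤ _ := h3.trans h4
    · rw [Set.indicator_of_notMem (show k ∉ (L : Set G) from hk), mul_zero]
      exact hFn
  have hbi : BddR ((L : Set G).indicator fun _ => (1 : ℝ)) :=
    ⟨1, fun x => by by_cases h : x ∈ (L : Set G) <;> simp [h]⟩
  have h5 := m.re_mono (hbi.cmul (ε ^ 2)) hFb hge
  rw [m.re_cmul _ hbi, hF0] at h5
  have h6 := mean_sub_pos hm L hL
  have : 0 < ε ^ 2 * m.re ((L : Set G).indicator fun _ => 1) := by positivity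
  linarith

end Pool.Agent.R971.Bohr
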